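import Mathlib
import Pool.Agent.X48.Broadcast

/-!
A sequence of graphs with broadcast dimension exactly `k` and adjacency dimension exponentially
large in `k`.
-/

namespace Pool.Agent.Results.MP_d61170_co.ExponentialGap

open Pool.Agent.X48.Broadcast

theorem result : ∃ (V : ℕ → Type) (_ : ∀ k, Fintype (V k)) (G : ∀ k, SimpleGraph (V k)),
    (∀ k, 1 ≤ k → bdim (G k) = k) ∧
      ∃ c : ℝ, 0 < c ∧ ∃ N : ℕ, ∀ k, N < k → (2 : ℝ) ^ (c * (k : ℝ)) ≤ (adim (G k) : ℝ) := by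
  have hex : ∀ k : ℕ, ∃ t, 1 ≤ k → bdim (ext (GG ((k - 1) / 5)) t) = k := by
    intro k
    by_cases hk : 1 ≤ k
    · have h1 := bdim_GG ((k - 1) / 5)
      obtain ⟨t, ht⟩ := exists_exact (GG ((k - 1) / 5)) k (by omega)
      exact ⟨t, fun _ => ht⟩
    · exact ⟨0, fun h => absurd h hk⟩
  choose t ht using hex
  refine ⟨fun k => (Y ((k - 1) / 5) ⊕ R ((k - 1) / 5)) ⊕ Fin (t k), fun k => inferInstance,
    fun k => ext (GG ((k - 1) / 5)) (t k), ht, 1 / 20, by norm_num, 100, ?_⟩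
  intro k hk
  obtain ⟨h, hh⟩ : ∃ h, h = (k - 1) / 5 := ⟨_, rfl⟩
  have hk5 : k ≤ 5 * h + 5 := by omega
  have h12 : 12 ≤ h := by omega
  change (2 : ℝ) ^ (1 / 20 * (k : ℝ)) ≤ (adim (ext (GG ((k - 1) / 5)) (t k)) : ℝ)
  have h1 : 2 ^ (h - h / 2) ≤ 1 + adim (ext (GG ((k - 1) / 5)) (t k)) := by
    have h0 := adim_big (h := (k - 1) / 5) (by omega) (t k)
    rw [hh]
    exact h0
  generalize adim (ext (GG ((k - 1) / 5)) (t k)) = A at h1 ⊢
  obtain ⟨e, he⟩ : ∃ e, e + 1 = h - h / 2 := ⟨h - h / 2 - 1, by omega⟩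
  rw [← he, pow_succ] at h1
  have h2 : 1 ≤ 2 ^ e := Nat.one_le_two_pow
  have h3 : 2 ^ e ≤ A := by omega
  have h4 : (2 : ℝ) ^ (e : ℝ) ≤ (A : ℝ) := by
    rw [Real.rpow_natCast]
    exact_mod_cast h3
  refine le_trans ?_ h4
  apply Real.rpow_le_rpow_of_exponent_le (by norm_num)
  have h5 : (k : ℝ) ≤ 5 * h + 5 := by exact_mod_cast hk5
  have h6 : (h : ℝ) ≤ 2 * e + 2 := by
    have : h ≤ 2 * e + 2 := by omega
    exact_mod_cast this
  have h7 : (12 : ℝ) ≤ h := by exact_mod_cast h12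
  linarith

end Pool.Agent.Results.MP_d61170_co.ExponentialGap
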